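import Mathlib

/-! Turing functionals on Baire space, Gale-Stewart games, and the image graph of a function. -/

namespace Pool.Agent.Lib.MP_fa224b_lc

/-- Baire space. -/
abbrev B : Type := ℕ → ℕ

/-- A real as a (total) oracle. -/
def lift (x : B) : ℕ →. ℕ := fun n => Part.some (x n)

/-- Turing reducibility `x ≤_T y` of reals. -/
def TLe (x y : B) : Prop := TuringReducible (lift x) (lift y)

/-- Turing equivalence of reals. -/
def TEq (x y : B) : Prop := TuringEquivalent (lift x) (lift y)

/-- Oracle programs: the clauses of `Nat.RecursiveIn`. -/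
inductive OC where
  | zero : OC
  | succ : OC
  | left : OC
  | right : OC
  | orc : OC
  | pair : OC → OC → OC
  | comp : OC → OC → OC
  | prec : OC → OC → OC
  | rfind : OC → OC

/-- The partial function computed by a program from an oracle. -/
def OC.eval (x : ℕ →. ℕ) : OC → ℕ →. ℕ
  | .zero => fun _ => 0
  | .succ => Nat.succ
  | .left => fun n => (Nat.unpair n).1
  | .right => fun n => (Nat.unpair n).2
  | .orc => x
  | .pair f g => fun n => Nat.pair <$> f.eval x n <*> g.eval x n
  | .comp f g => fun n => g.eval x n >>= f.eval x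
  | .prec f g => fun p =>
      let (a, n) := Nat.unpair p
      n.rec (f.eval x a) fun y IH => do
        let i ← IH
        g.eval x (Nat.pair a (Nat.pair y i))
  | .rfind f => fun a => Nat.rfind fun n => (fun m => m = 0) <$> f.eval x (Nat.pair a n)

/-- `x` and `y` are Turing equivalent via the pair of programs `g`. -/
def Via (g : OC × OC) (x y : B) : Prop :=
  g.1.eval (lift x) = lift y ∧ g.2.eval (lift y) = lift x

/-- The moves made so far (last move first) when I follows `σ` and II follows `τ`. -/
def hist (σ τ : List ℕ → ℕ) : ℕ → List ℕ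
  | 0 => []
  | n + 1 => (if n % 2 = 0 then σ (hist σ τ n) else τ (hist σ τ n)) :: hist σ τ n

/-- The run of `σ` against `τ`. -/
def run (σ τ : List ℕ → ℕ) : B := fun n => (hist σ τ (n + 1)).headD 0

/-- The Gale-Stewart game with payoff set `A` is determined. -/
def Determined (A : Set B) : Prop :=
  (∃ σ, ∀ τ, run σ τ ∈ A) ∨ (∃ τ, ∀ σ, run σ τ ∉ A)

/-- A sigma-algebra of determined sets that contains the Borel sets and is closed under Borel
preimages (all sets under AD; the Borel sets in ZFC). -/
structure Adequate (𝒜 : MeasurableSpace B) : Prop where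
  borel_le : (MeasurableSpace.pi : MeasurableSpace B) ≤ 𝒜
  preimage : ∀ φ : B → B, @Measurable B B MeasurableSpace.pi MeasurableSpace.pi φ →
    @Measurable B B 𝒜 𝒜 φ
  determined : ∀ A : Set B, @MeasurableSet B 𝒜 A → Determined A

/-- The image under `F` of the graph that the Turing equivalences in `G` induce on the Turing
degree of `d`. -/
def Edge (F : B → B) (d : B) (G : Finset (OC × OC)) (v w : B) : Prop :=
  ∃ g ∈ G, ∃ x y, TEq d x ∧ Via g x y ∧ ((F x = v ∧ F y = w) ∨ (F x = w ∧ F y = v))

/-- Balls in the image graph. -/
def ball (F : B → B) (d : B) (G : Finset (OC × OC)) : ℕ → B → Set B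
  | 0, v => {v}
  | r + 1, v => ball F d G r v ∪ {w | ∃ u ∈ ball F d G r v, Edge F d G u w}

end Pool.Agent.Lib.MP_fa224b_lc
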