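import Pool.Agent.Lib.MP_fa224b_lc.Defs

-- part Pool.Agent.Lib.MP_fa224b_lc.Comp
section

/-! Closure properties of Turing functionals. -/

namespace Pool.Agent.Lib.MP_fa224b_lc

open Encodable Filter

theorem ev_pair (x : ℕ →. ℕ) (f g : OC) (n : ℕ) :
    (OC.pair f g).eval x n = (Nat.pair <$> f.eval x n <*> g.eval x n : Part ℕ) := rfl
theorem ev_comp (x : ℕ →. ℕ) (f g : OC) (n : ℕ) :
    (OC.comp f g).eval x n = (g.eval x n).bind (fun m => f.eval x m) := rfl
theorem ev_prec (x : ℕ →. ℕ) (f g : OC) (p : ℕ) :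
    (OC.prec f g).eval x p = (Nat.rec (f.eval x p.unpair.1) (fun y IH => IH.bind fun i =>
      g.eval x (Nat.pair p.unpair.1 (Nat.pair y i))) p.unpair.2 : Part ℕ) := rfl
theorem ev_rfind (x : ℕ →. ℕ) (f : OC) (a : ℕ) :
    (OC.rfind f).eval x a =
      Nat.rfind fun n => (f.eval x (Nat.pair a n)).map (fun m => decide (m = 0)) := rfl

theorem mem_rf (p : ℕ → Part ℕ) (y : ℕ) :
    y ∈ (Nat.rfind fun n => (p n).map (fun m => decide (m = 0))) ↔
      0 ∈ p y ∧ ∀ m < y, ∃ b ∈ p m, b ≠ 0 := by
  refine Nat.mem_rfind.trans ?_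
  simp only [Part.mem_map_iff, decide_eq_true_eq, exists_eq_right, decide_eq_false_iff_not]

theorem OC.recIn (x : ℕ →. ℕ) (c : OC) : Nat.RecursiveIn {x} (c.eval x) := by
  induction c with
  | zero => exact .zero
  | succ => exact .succ
  | left => exact .left
  | right => exact .right
  | orc => exact .oracle _ rfl
  | pair f g hf hg => exact .pair hf hg
  | comp f g hf hg => exact .comp hf hg
  | prec f g hf hg => exact .prec hf hg
  | rfind f hf => exact .rfind hf

theorem exists_oc {x f : ℕ →. ℕ} (h : Nat.RecursiveIn {x} f) : ∃ c : OC, c.eval x = f := by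
  induction h with
  | zero => exact ⟨.zero, rfl⟩
  | succ => exact ⟨.succ, rfl⟩
  | left => exact ⟨.left, rfl⟩
  | right => exact ⟨.right, rfl⟩
  | oracle g hg => exact ⟨.orc, (Set.mem_singleton_iff.1 hg).symm⟩
  | pair _ _ hf hg =>
    obtain ⟨a, rfl⟩ := hf; obtain ⟨b, rfl⟩ := hg; exact ⟨.pair a b, rfl⟩
  | comp _ _ hf hg =>
    obtain ⟨a, rfl⟩ := hf; obtain ⟨b, rfl⟩ := hg; exact ⟨.comp a b, rfl⟩
  | prec _ _ hf hg =>
    obtain ⟨a, rfl⟩ := hf; obtain ⟨b, rfl⟩ := hg; exact ⟨.prec a b, rfl⟩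
  | rfind _ hf => obtain ⟨a, rfl⟩ := hf; exact ⟨.rfind a, rfl⟩

theorem tle_iff {x y : B} : TLe x y ↔ ∃ c : OC, c.eval (lift y) = lift x := by
  unfold TLe TuringReducible
  rw [RecursiveIn.iff_nat]
  exact ⟨exists_oc, fun ⟨c, hc⟩ => hc ▸ c.recIn _⟩

theorem TLe.refl (x : B) : TLe x x := TuringReducible.refl _
theorem TLe.trans {x y z : B} (h : TLe x y) (h' : TLe y z) : TLe x z :=
  TuringReducible.trans h h'
theorem teq_iff {x y : B} : TEq x y ↔ TLe x y ∧ TLe y x := Iff.rfl
theorem TEq.refl (x : B) : TEq x x := ⟨TLe.refl x, TLe.refl x⟩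
theorem TEq.symm {x y : B} (h : TEq x y) : TEq y x := ⟨h.2, h.1⟩
theorem TEq.trans {x y z : B} (h : TEq x y) (h' : TEq y z) : TEq x z :=
  ⟨TLe.trans h.1 h'.1, TLe.trans h'.2 h.2⟩
theorem Via.teq {g : OC × OC} {x y : B} (h : Via g x y) : TEq x y :=
  ⟨tle_iff.2 ⟨_, h.2⟩, tle_iff.2 ⟨_, h.1⟩⟩
theorem TEq.via {x y : B} (h : TEq x y) : ∃ g, Via g x y := by
  obtain ⟨a, ha⟩ := tle_iff.1 h.1
  obtain ⟨b, hb⟩ := tle_iff.1 h.2
  exact ⟨(b, a), hb, ha⟩

theorem exists_oc_partrec {f : ℕ →. ℕ} (h : Nat.Partrec f) : ∃ c : OC, ∀ x, c.eval x = f := by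
  induction h with
  | zero => exact ⟨.zero, fun _ => rfl⟩
  | succ => exact ⟨.succ, fun _ => rfl⟩
  | left => exact ⟨.left, fun _ => rfl⟩
  | right => exact ⟨.right, fun _ => rfl⟩
  | pair _ _ hf hg =>
    obtain ⟨a, ha⟩ := hf; obtain ⟨b, hb⟩ := hg
    exact ⟨.pair a b, fun x => by simp only [OC.eval, ha, hb]⟩
  | comp _ _ hf hg =>
    obtain ⟨a, ha⟩ := hf; obtain ⟨b, hb⟩ := hg
    exact ⟨.comp a b, fun x => by simp only [OC.eval, ha, hb]⟩
  | prec _ _ hf hg =>
    obtain ⟨a, ha⟩ := hf; obtain ⟨b, hb⟩ := hg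
    exact ⟨.prec a b, fun x => by simp only [OC.eval, ha, hb]⟩
  | rfind _ hf =>
    obtain ⟨a, ha⟩ := hf
    exact ⟨.rfind a, fun x => by simp only [OC.eval, ha]⟩

/-- substitution of a program for the oracle -/
def OC.subst (d : OC) : OC → OC
  | .zero => .zero
  | .succ => .succ
  | .left => .left
  | .right => .right
  | .orc => d
  | .pair f g => .pair (d.subst f) (d.subst g)
  | .comp f g => .comp (d.subst f) (d.subst g)
  | .prec f g => .prec (d.subst f) (d.subst g)
  | .rfind f => .rfind (d.subst f)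

theorem OC.eval_subst (d : OC) (x : ℕ →. ℕ) (c : OC) :
    (d.subst c).eval x = c.eval (d.eval x) := by
  induction c with
  | zero | succ | left | right | orc => rfl
  | pair f g hf hg => simp only [OC.subst, OC.eval, hf, hg]
  | comp f g hf hg => simp only [OC.subst, OC.eval, hf, hg]
  | prec f g hf hg => simp only [OC.subst, OC.eval, hf, hg]
  | rfind f hf => simp only [OC.subst, OC.eval, hf]

/-- a relation that is contained in the graph of a Turing functional -/
def PC (R : B → B → Prop) : Prop := ∃ c : OC, ∀ x y, R x y → c.eval (lift x) = lift y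

/-- a total computable map -/
def TC (G : B → B) : Prop := PC fun x y => y = G x

theorem PC.mono {R S : B → B → Prop} (h : PC R) (H : ∀ x y, S x y → R x y) : PC S :=
  let ⟨c, hc⟩ := h; ⟨c, fun x y hs => hc x y (H x y hs)⟩

theorem PC.comp {R S : B → B → Prop} (h : PC R) (h' : PC S) :
    PC fun x z => ∃ y, R x y ∧ S y z := by
  obtain ⟨c, hc⟩ := h
  obtain ⟨d, hd⟩ := h'
  refine ⟨c.subst d, ?_⟩
  rintro x z ⟨y, h1, h2⟩
  rw [OC.eval_subst, hc x y h1, hd y z h2]

theorem PC.tle {R : B → B → Prop} (h : PC R) {x y : B} (H : R x y) : TLe y x :=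
  let ⟨c, hc⟩ := h; tle_iff.2 ⟨c, hc x y H⟩

theorem TC.tle {G : B → B} (h : TC G) (x : B) : TLe (G x) x := PC.tle h rfl

theorem pc_point {x y : B} (h : TLe y x) : PC fun a b => a = x ∧ b = y := by
  obtain ⟨c, hc⟩ := tle_iff.1 h
  exact ⟨c, by rintro _ _ ⟨rfl, rfl⟩; exact hc⟩

theorem pc_eval (c : OC) : PC fun x y => c.eval (lift x) = lift y := ⟨c, fun _ _ h => h⟩

theorem exists_via {R : B → B → Prop} (h : PC R) (h' : PC fun x y => R y x) :
    ∃ g, ∀ x y, R x y → Via g x y :=
  let ⟨c, hc⟩ := h; let ⟨d, hd⟩ := h'; ⟨(c, d), fun x y H => ⟨hc x y H, hd y x H⟩⟩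

theorem TC.comp {G H : B → B} (hG : TC G) (hH : TC H) : TC fun x => G (H x) :=
  (PC.comp hH hG).mono fun x _ h => ⟨H x, rfl, h⟩

theorem TC.id : TC fun x => x := ⟨.orc, by rintro x _ rfl; rfl⟩

theorem TC.prim {f : ℕ → ℕ} (hf : Computable f) : TC fun _ => f := by
  obtain ⟨c, hc⟩ := exists_oc_partrec (Partrec.nat_iff.1 hf)
  exact ⟨c, by rintro x _ rfl; exact hc _⟩

theorem PC.app {R S : B → B → Prop} (h : PC R) (h' : PC S) :
    PC fun x z => ∃ y y', R x y ∧ S x y' ∧ z = fun n => y (y' n) := by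
  obtain ⟨c, hc⟩ := h
  obtain ⟨d, hd⟩ := h'
  refine ⟨.comp c d, ?_⟩
  rintro x _ ⟨y, y', h1, h2, rfl⟩
  funext n
  simp [ev_comp, hc x y h1, hd x y' h2, lift]

theorem PC.pair {R S : B → B → Prop} (h : PC R) (h' : PC S) :
    PC fun x z => ∃ y y', R x y ∧ S x y' ∧ z = fun n => Nat.pair (y n) (y' n) := by
  obtain ⟨c, hc⟩ := h
  obtain ⟨d, hd⟩ := h'
  refine ⟨.pair c d, ?_⟩
  rintro x _ ⟨y, y', h1, h2, rfl⟩
  funext n
  simp [OC.eval, hc x y h1, hd x y' h2, lift, Seq.seq]

theorem TC.app {f g : B → B} (hf : TC f) (hg : TC g) : TC fun x n => f x (g x n) :=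
  (PC.app hf hg).mono fun _ _ h => ⟨_, _, rfl, rfl, h⟩

theorem TC.pair {f g : B → B} (hf : TC f) (hg : TC g) :
    TC fun x n => Nat.pair (f x n) (g x n) :=
  (PC.pair hf hg).mono fun _ _ h => ⟨_, _, rfl, rfl, h⟩

theorem TC.of_eq {f g : B → B} (hf : TC f) (h : ∀ x n, f x n = g x n) : TC g :=
  (funext fun x => funext (h x) : f = g) ▸ hf

theorem TC.post {f : B → B} (hf : TC f) {p : ℕ → ℕ} (hp : Computable p) :
    TC fun x n => p (f x n) := TC.app (TC.prim hp) hf

theorem TC.pre {f : B → B} (hf : TC f) {p : ℕ → ℕ} (hp : Computable p) :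
    TC fun x n => f x (p n) := TC.app hf (TC.prim hp)

theorem TC.post₂ {f g : B → B} (hf : TC f) (hg : TC g) {p : ℕ → ℕ → ℕ} (hp : Computable₂ p) :
    TC fun x n => p (f x n) (g x n) := by
  have h : Computable fun q : ℕ => p q.unpair.1 q.unpair.2 :=
    hp.comp (Computable.fst.comp Computable.unpair) (Computable.snd.comp Computable.unpair)
  exact ((hf.pair hg).post h).of_eq fun x n => by simp

/-- recursion on the argument -/
theorem TC.recn {h : B → B} (hh : TC h) (a : ℕ) :
    TC fun x n => (Nat.rec a (fun y IH => h x (Nat.pair y IH)) n : ℕ) := by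
  obtain ⟨c, hc⟩ := TC.prim (Computable.const (α := ℕ) a)
  obtain ⟨d, hd⟩ := hh.pre (p := fun q => q.unpair.2) (Computable.snd.comp Computable.unpair)
  obtain ⟨e, he⟩ := TC.prim (f := fun n => Nat.pair 0 n)
    (Primrec₂.natPair.comp (Primrec.const 0) Primrec.id).to_comp
  refine ⟨.comp (.prec c d) e, ?_⟩
  rintro x _ rfl
  funext n
  simp only [OC.eval, hc x _ rfl, hd x _ rfl, he x _ rfl, lift, Part.bind_eq_bind, Part.bind_some,
    Nat.unpair_pair]
  induction n with
  | zero => rfl
  | succ n ih => simp only [ih, Part.bind_some]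

def join (s b : B) : B := fun n => if n % 2 = 0 then s (n / 2) else b (n / 2)
def evens (x : B) : B := fun n => x (2 * n)
def odds (x : B) : B := fun n => x (2 * n + 1)
def cons (D : ℕ) (z : B) : B := fun n => Nat.casesOn n D z
def tail (z : B) : B := fun n => z (n + 1)

@[simp] theorem evens_join (s b : B) : evens (join s b) = s := by
  funext n; simp [evens, join]
@[simp] theorem odds_join (s b : B) : odds (join s b) = b := by
  funext n
  have h1 : (2 * n + 1) % 2 = 1 := by omega
  have h2 : (2 * n + 1) / 2 = n := by omega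
  simp [odds, join, h1, h2]
@[simp] theorem tail_cons (D : ℕ) (z : B) : tail (cons D z) = z := rfl
@[simp] theorem cons_zero (D : ℕ) (z : B) : cons D z 0 = D := rfl

theorem pr_double : Primrec fun n : ℕ => 2 * n := Primrec.nat_mul.comp (Primrec.const 2) Primrec.id
theorem pr_half : Primrec fun n : ℕ => n / 2 := Primrec.nat_div.comp Primrec.id (Primrec.const 2)
theorem pr_even : PrimrecPred fun n : ℕ => n % 2 = 0 :=
  Primrec.eq.comp (Primrec.nat_mod.comp Primrec.id (Primrec.const 2)) (Primrec.const 0)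

theorem tc_evens : TC evens := TC.id.pre pr_double.to_comp
theorem tc_odds : TC odds := TC.id.pre (Primrec.succ.comp pr_double).to_comp
theorem tc_tail : TC tail := TC.id.pre Computable.succ

theorem tc_unzip : TC fun x => join (fun n => (x n).unpair.1) (fun n => (x n).unpair.2) := by
  have h : Computable₂ fun n q : ℕ => if n % 2 = 0 then q.unpair.1 else q.unpair.2 :=
    (Primrec.ite (pr_even.comp Primrec.fst) (Primrec.fst.comp (Primrec.unpair.comp Primrec.snd))
      (Primrec.snd.comp (Primrec.unpair.comp Primrec.snd))).to_comp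
  exact ((TC.prim Computable.id).post₂ (TC.id.pre pr_half.to_comp) h).of_eq fun x n => by
    simp [join]

theorem PC.join {R S : B → B → Prop} (h : PC R) (h' : PC S) :
    PC fun x z => ∃ y y', R x y ∧ S x y' ∧ z = join y y' := by
  refine ((h.pair h').comp tc_unzip).mono ?_
  rintro x _ ⟨y, y', h1, h2, rfl⟩
  exact ⟨_, ⟨y, y', h1, h2, rfl⟩, by simp⟩

theorem TC.join {f g : B → B} (hf : TC f) (hg : TC g) : TC fun x => join (f x) (g x) :=
  (PC.join hf hg).mono fun _ _ h => ⟨_, _, rfl, rfl, h⟩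

theorem TLe.join {a b w : B} (ha : TLe a w) (hb : TLe b w) : TLe (join a b) w :=
  ((pc_point ha).join (pc_point hb)).tle ⟨a, b, ⟨rfl, rfl⟩, ⟨rfl, rfl⟩, rfl⟩

theorem tc_cons2 : TC fun x => cons (evens x 0) (odds x) := by
  have h : Computable fun n : ℕ => 2 * n - 1 :=
    (Primrec.nat_sub.comp pr_double (Primrec.const 1)).to_comp
  refine (TC.id.pre h).of_eq fun x n => ?_
  cases n with
  | zero => rfl
  | succ n => simp only [cons, odds]; congr 1

theorem PC.cons {R S : B → B → Prop} (h : PC R) (h' : PC S) :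
    PC fun x z => ∃ y y', R x y ∧ S x y' ∧ z = cons (y 0) y' := by
  refine ((h.join h').comp tc_cons2).mono ?_
  rintro x _ ⟨y, y', h1, h2, rfl⟩
  exact ⟨_, ⟨y, y', h1, h2, rfl⟩, by simp⟩

theorem TC.cons {f g : B → B} (hf : TC f) (hg : TC g) : TC fun x => cons (f x 0) (g x) :=
  (PC.cons hf hg).mono fun _ _ h => ⟨_, _, rfl, rfl, h⟩

/-- initial segments, last entry first -/
def rp (x : B) : ℕ → List ℕ
  | 0 => []
  | s + 1 => x s :: rp x s

theorem rp_reverse (x : B) (s : ℕ) : (rp x s).reverse = (List.range s).map x := by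
  induction s with
  | zero => rfl
  | succ s ih => simp [rp, ih, List.range_succ]

theorem tc_rp : TC fun x s => encode (rp x s) := by
  have h1 : TC fun x q => Nat.succ (Nat.pair (x q.unpair.1) q.unpair.2) :=
    ((TC.id.pre (Computable.fst.comp Computable.unpair)).pair
      (TC.prim (Computable.snd.comp Computable.unpair))).post Computable.succ
  refine (h1.recn 0).of_eq fun x s => ?_
  induction s with
  | zero => rfl
  | succ s ih =>
    simp only [Nat.unpair_pair] at ih
    simp only [ih, rp, Nat.unpair_pair, encode_list_cons, encode_nat]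

theorem exists_sim (c : OC) : ∃ g : List ℕ → ℕ →. ℕ, Partrec₂ g ∧ ∀ A : B,
    (∀ j x y, y ∈ g (rp A j) x → y ∈ c.eval (lift A) x) ∧
      ∀ x y, y ∈ c.eval (lift A) x → ∀ᶠ j in atTop, y ∈ g (rp A j) x := by
  have tot : ∀ {F : ℕ →. ℕ} (c : OC), Nat.Partrec F → (∀ x, c.eval x = F) →
      ∃ g : List ℕ → ℕ →. ℕ, Partrec₂ g ∧ ∀ A : B,
      (∀ j x y, y ∈ g (rp A j) x → y ∈ c.eval (lift A) x) ∧
        ∀ x y, y ∈ c.eval (lift A) x → ∀ᶠ j in atTop, y ∈ g (rp A j) x := by
    intro F c hF hc
    exact ⟨fun _ x => F x, (Partrec.nat_iff.2 hF).comp Computable.snd, fun A =>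
      ⟨fun _ _ _ h => hc _ ▸ h, fun _ _ h => Eventually.of_forall fun _ => hc (lift A) ▸ h⟩⟩
  induction c with
  | zero => exact tot _ Nat.Partrec.zero fun _ => rfl
  | succ => exact tot _ Nat.Partrec.succ fun _ => rfl
  | left => exact tot _ Nat.Partrec.left fun _ => rfl
  | right => exact tot _ Nat.Partrec.right fun _ => rfl
  | orc =>
    refine ⟨fun l x => ((l.reverse[x]? : Option ℕ) : Part ℕ), ?_, fun A => ⟨?_, ?_⟩⟩
    · exact Computable.ofOption (Primrec.list_getElem?.comp
        (Primrec.list_reverse.comp Primrec.fst) Primrec.snd).to_comp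
    · intro j x y h
      simp only [Part.mem_coe, Option.mem_def, rp_reverse, List.getElem?_map,
        Option.map_eq_some_iff] at h
      obtain ⟨i, hi, rfl⟩ := h
      obtain rfl : i = x := by
        rw [List.getElem?_eq_some_iff] at hi
        obtain ⟨_, hi⟩ := hi
        simpa using hi.symm
      simp [OC.eval, lift]
    · intro x y h
      filter_upwards [eventually_gt_atTop x] with j hj
      simp only [OC.eval, lift, Part.mem_some_iff] at h
      subst h
      simp [rp_reverse, hj]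
  | pair f h ihf ihh =>
    obtain ⟨gf, pf, sf⟩ := ihf
    obtain ⟨gh, ph, sh⟩ := ihh
    refine ⟨fun l x => (gf l x).bind fun a => (gh l x).map fun b => Nat.pair a b, ?_,
      fun A => ⟨?_, ?_⟩⟩
    · have h1 : Partrec (fun q : (List ℕ × ℕ) × ℕ =>
          (gh q.1.1 q.1.2).map fun b => Nat.pair q.2 b) :=
        Partrec.map (ph.comp (Computable.fst.comp Computable.fst)
          (Computable.snd.comp Computable.fst))
          (Primrec₂.natPair.comp (Primrec.snd.comp Primrec.fst) Primrec.snd).to_comp.to₂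
      exact Partrec.bind pf h1.to₂
    · intro j x y h
      simp only [Part.mem_bind_iff, Part.mem_map_iff] at h
      obtain ⟨a, ha, b, hb, rfl⟩ := h
      simp only [OC.eval, Seq.seq, Part.map_eq_map, Part.mem_bind_iff, Part.mem_map_iff]
      exact ⟨_, ⟨a, (sf A).1 _ _ _ ha, rfl⟩, b, (sh A).1 _ _ _ hb, rfl⟩
    · intro x y h
      simp only [OC.eval, Seq.seq, Part.map_eq_map, Part.mem_bind_iff, Part.mem_map_iff] at h
      obtain ⟨_, ⟨a, ha, rfl⟩, b, hb, rfl⟩ := h
      filter_upwards [(sf A).2 _ _ ha, (sh A).2 _ _ hb] with j h1 h2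
      simp only [Part.mem_bind_iff, Part.mem_map_iff]
      exact ⟨a, h1, b, h2, rfl⟩
  | comp f h ihf ihh =>
    obtain ⟨gf, pf, sf⟩ := ihf
    obtain ⟨gh, ph, sh⟩ := ihh
    refine ⟨fun l x => (gh l x).bind (gf l), ?_, fun A => ⟨?_, ?_⟩⟩
    · exact Partrec.bind ph (pf.comp (Computable.fst.comp Computable.fst) Computable.snd).to₂
    · intro j x y h
      obtain ⟨a, ha, hb⟩ := Part.mem_bind_iff.1 h
      exact Part.mem_bind_iff.2 ⟨a, (sh A).1 _ _ _ ha, (sf A).1 _ _ _ hb⟩
    · intro x y h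
      obtain ⟨a, ha, hb⟩ := Part.mem_bind_iff.1 h
      filter_upwards [(sh A).2 _ _ ha, (sf A).2 _ _ hb] with j h1 h2
      exact Part.mem_bind_iff.2 ⟨a, h1, h2⟩
  | prec f h ihf ihh =>
    obtain ⟨gf, pf, sf⟩ := ihf
    obtain ⟨gh, ph, sh⟩ := ihh
    refine ⟨fun l p => Nat.rec (gf l p.unpair.1)
      (fun y IH => IH.bind fun i => gh l (Nat.pair p.unpair.1 (Nat.pair y i))) p.unpair.2,
      ?_, fun A => ⟨?_, ?_⟩⟩
    · have u1 : Primrec fun a : List ℕ × ℕ => a.2.unpair.1 :=
        Primrec.fst.comp (Primrec.unpair.comp Primrec.snd)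
      refine Partrec.nat_rec (f := fun a : List ℕ × ℕ => a.2.unpair.2)
        (g := fun a : List ℕ × ℕ => gf a.1 a.2.unpair.1)
        (h := fun a q => gh a.1 (Nat.pair a.2.unpair.1 (Nat.pair q.1 q.2))) ?_ ?_ ?_
      · exact (Primrec.snd.comp (Primrec.unpair.comp Primrec.snd)).to_comp
      · exact pf.comp Computable.fst u1.to_comp
      · have h1 : Primrec (fun q : (List ℕ × ℕ) × ℕ × ℕ =>
            Nat.pair q.1.2.unpair.1 (Nat.pair q.2.1 q.2.2)) :=
          Primrec₂.natPair.comp (u1.comp Primrec.fst) (Primrec₂.natPair.comp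
            (Primrec.fst.comp Primrec.snd) (Primrec.snd.comp Primrec.snd))
        exact (ph.comp (Computable.fst.comp Computable.fst) h1.to_comp).to₂
    · intro j x
      simp only [OC.eval]
      generalize x.unpair.1 = a
      generalize x.unpair.2 = n
      induction n with
      | zero => exact fun y hy => (sf A).1 _ _ _ hy
      | succ n ih =>
        intro y hy
        simp only [Part.mem_bind_iff, Part.bind_eq_bind] at hy ⊢
        obtain ⟨i, hi, hy⟩ := hy
        exact ⟨i, ih i hi, (sh A).1 _ _ _ hy⟩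
    · intro x
      simp only [OC.eval]
      generalize x.unpair.1 = a
      generalize x.unpair.2 = n
      induction n with
      | zero => exact fun y hy => (sf A).2 _ _ hy
      | succ n ih =>
        intro y hy
        simp only [Part.mem_bind_iff, Part.bind_eq_bind] at hy ⊢
        obtain ⟨i, hi, hy⟩ := hy
        filter_upwards [ih i hi, (sh A).2 _ _ hy] with j h1 h2
        exact ⟨i, h1, h2⟩
  | rfind f ihf =>
    obtain ⟨gf, pf, sf⟩ := ihf
    refine ⟨fun l a => Nat.rfind fun n => (gf l (Nat.pair a n)).map (fun m => decide (m = 0)),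
      ?_, fun A => ⟨?_, ?_⟩⟩
    · refine Partrec.rfind (p := fun (a : List ℕ × ℕ) n =>
        (gf a.1 (Nat.pair a.2 n)).map (fun m => decide (m = 0))) ?_
      have h1 : Primrec (fun q : (List ℕ × ℕ) × ℕ => Nat.pair q.1.2 q.2) :=
        Primrec₂.natPair.comp (Primrec.snd.comp Primrec.fst) Primrec.snd
      have h2 : Partrec (fun q : (List ℕ × ℕ) × ℕ =>
          (gf q.1.1 (Nat.pair q.1.2 q.2)).map (fun m => decide (m = 0))) :=
        Partrec.map (pf.comp (Computable.fst.comp Computable.fst) h1.to_comp)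
          (Primrec.eq.decide.comp Primrec.snd (Primrec.const 0)).to_comp.to₂
      exact h2.to₂
    · intro j x y h
      obtain ⟨ha, h2⟩ := (mem_rf (fun n => gf (rp A j) (Nat.pair x n)) y).1 h
      refine (mem_rf (fun n => f.eval (lift A) (Nat.pair x n)) y).2
        ⟨(sf A).1 _ _ _ ha, fun m hm => ?_⟩
      obtain ⟨b, hb, h3⟩ := h2 m hm
      exact ⟨b, (sf A).1 _ _ _ hb, h3⟩
    · intro x y h
      obtain ⟨ha, h2⟩ := (mem_rf (fun n => f.eval (lift A) (Nat.pair x n)) y).1 h
      have h3 : ∀ᶠ j in atTop, ∀ m ∈ Finset.range y,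
          ∃ b ∈ gf (rp A j) (Nat.pair x m), b ≠ 0 := by
        rw [eventually_all_finset]
        intro m hm
        obtain ⟨b, hb, h3⟩ := h2 m (Finset.mem_range.1 hm)
        filter_upwards [(sf A).2 _ _ hb] with j hj
        exact ⟨b, hj, h3⟩
      filter_upwards [(sf A).2 _ _ ha, h3] with j h4 h5
      exact (mem_rf (fun n => gf (rp A j) (Nat.pair x n)) y).2
        ⟨h4, fun m hm => h5 m (Finset.mem_range.2 hm)⟩

end Pool.Agent.Lib.MP_fa224b_lc
end

-- part Pool.Agent.Lib.MP_fa224b_lc.Univ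
section

/-! Normal form, universal functional and measurability. -/

namespace Pool.Agent.Lib.MP_fa224b_lc

open Encodable Nat.Partrec Nat.Partrec.Code

def st (k : ℕ) (x : B) (s n : ℕ) : Option ℕ :=
  evaln s.unpair.2 (Denumerable.ofNat Code k) (Nat.pair (encode (rp x s.unpair.1)) n)

def Q (k : ℕ) (x : B) (n m : ℕ) : Prop :=
  ∃ s, st k x s n = some m ∧ ∀ t < s, st k x t n = Option.none

def Ev (k : ℕ) (x y : B) : Prop := ∀ n, Q k x n (y n)

theorem Q.unique {k : ℕ} {x : B} {n m m' : ℕ} (h : Q k x n m) (h' : Q k x n m') : m = m' := by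
  obtain ⟨s, h1, h2⟩ := h
  obtain ⟨t, h3, h4⟩ := h'
  rcases lt_trichotomy s t with h | rfl | h
  · rw [h4 s h] at h1; cases h1
  · rw [h1] at h3; exact Option.some.inj h3
  · rw [h2 t h] at h3; cases h3

theorem exists_ev (c : OC) : ∃ k, ∀ x y, c.eval (lift x) = lift y ↔ Ev k x y := by
  classical
  obtain ⟨g, pg, sg⟩ := exists_sim c
  obtain ⟨d, hd⟩ := exists_code.1 pg
  have hd' : ∀ l x y, y ∈ eval d (Nat.pair (encode l) x) ↔ y ∈ g l x := by
    intro l x y
    rw [hd]
    have : Nat.pair (encode l) x = encode (l, x) := rfl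
    simp only [this, encodek]
    simp
  have sound : ∀ x s n m, st (encode d) x s n = some m → m ∈ c.eval (lift x) n := by
    intro x s n m h
    unfold st at h
    rw [Denumerable.ofNat_encode] at h
    exact (sg x).1 _ _ _ ((hd' _ _ _).1 (evaln_sound h))
  refine ⟨encode d, fun x y => ⟨fun h n => ?_, fun h => ?_⟩⟩
  · have h0 : y n ∈ c.eval (lift x) n := by rw [h]; exact Part.mem_some _
    obtain ⟨j, hj⟩ := ((sg x).2 _ _ h0).exists
    obtain ⟨t, ht⟩ := evaln_complete.1 ((hd' _ _ _).2 hj)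
    have hex : ∃ s, st (encode d) x s n ≠ Option.none := by
      refine ⟨Nat.pair j t, ?_⟩
      unfold st
      rw [Denumerable.ofNat_encode, Nat.unpair_pair]
      intro h1
      simp only at h1
      rw [h1] at ht; cases ht
    obtain ⟨m, hm⟩ := Option.ne_none_iff_exists'.1 (Nat.find_spec hex)
    obtain rfl : m = y n := Part.mem_unique (sound _ _ _ _ hm) h0
    exact ⟨_, hm, fun t ht => not_not.1 (Nat.find_min hex ht)⟩
  · funext n
    obtain ⟨s, hs, -⟩ := h n
    exact Part.eq_some_iff.2 (sound _ _ _ _ hs)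

theorem tc_st : TC fun q p => encode (st (q 0) (tail q) p.unpair.2 p.unpair.1) := by
  have h1 : TC fun q _ => q 0 := TC.id.pre (Computable.const 0)
  have u1 : Primrec fun p : ℕ => p.unpair.1 := Primrec.fst.comp Primrec.unpair
  have u2 : Primrec fun p : ℕ => p.unpair.2 := Primrec.snd.comp Primrec.unpair
  have h2 : TC fun q p => encode (rp (tail q) p.unpair.2.unpair.1) :=
    (tc_rp.comp tc_tail).pre (u1.comp u2).to_comp
  have h3 : Computable₂ fun a p : ℕ => encode (evaln p.unpair.2.unpair.2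
      (Denumerable.ofNat Code a.unpair.1) (Nat.pair a.unpair.2 p.unpair.1)) :=
    (Primrec.encode.comp (primrec_evaln.comp (Primrec.pair (Primrec.pair
      ((u2.comp u2).comp Primrec.snd) ((Primrec.ofNat Code).comp (u1.comp Primrec.fst)))
      (Primrec₂.natPair.comp (u2.comp Primrec.fst) (u1.comp Primrec.snd))))).to_comp
  exact ((h1.pair h2).post₂ (TC.prim Computable.id) h3).of_eq fun q p => by simp [st]

theorem pc_ev : PC fun q y => Ev (q 0) (tail q) y := by
  obtain ⟨a, ha⟩ := tc_st.post (p := Nat.pred) Primrec.pred.to_comp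
  obtain ⟨b, hb⟩ := tc_st.post (p := fun v => 1 - v)
    (Primrec.nat_sub.comp (Primrec.const 1) Primrec.id).to_comp
  obtain ⟨e, he⟩ := TC.prim Computable.id
  refine ⟨.comp a (.pair e (.rfind b)), fun q y h => ?_⟩
  funext n
  obtain ⟨s, h1, h2⟩ := h n
  have hs : (OC.rfind b).eval (lift q) n = Part.some s := by
    rw [ev_rfind, hb q _ rfl]
    refine Part.eq_some_iff.2 ((mem_rf _ s).2 ⟨?_, fun m hm => ⟨1, ?_, one_ne_zero⟩⟩)
    · simp [lift, h1]
    · simp [lift, h2 m hm]
  rw [ev_comp, ev_pair, hs, he q _ rfl, ha q _ rfl]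
  simp [lift, Seq.seq, h1]

theorem tc_consk (k : ℕ) : TC fun x => cons k x :=
  TC.cons (f := fun _ _ => k) (TC.prim (Computable.const k)) TC.id

theorem tle_iff_ev {x y : B} : TLe y x ↔ ∃ k, Ev k x y := by
  constructor
  · intro h
    obtain ⟨c, hc⟩ := tle_iff.1 h
    obtain ⟨k, hk⟩ := exists_ev c
    exact ⟨k, (hk x y).1 hc⟩
  · rintro ⟨k, hk⟩
    exact (pc_ev.tle (x := cons k x) hk).trans ((tc_consk k).tle x)

section meas

variable {X : Type} [MeasurableSpace X]

theorem meas_nat₂ {f g : X → ℕ} (hf : Measurable f) (hg : Measurable g) (p : ℕ → ℕ → ℕ) :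
    Measurable fun x => p (f x) (g x) :=
  (measurable_of_countable fun q : ℕ × ℕ => p q.1 q.2).comp (hf.prodMk hg)

theorem meas_prop₂ {f g : X → ℕ} (hf : Measurable f) (hg : Measurable g) (p : ℕ → ℕ → Prop) :
    Measurable fun x => p (f x) (g x) :=
  (measurable_of_countable fun q : ℕ × ℕ => p q.1 q.2).comp (hf.prodMk hg)

theorem meas_rp (s : ℕ) : Measurable fun x : B => encode (rp x s) := by
  induction s with
  | zero => exact measurable_const
  | succ s ih => exact meas_nat₂ (measurable_pi_apply s) ih fun a b => Nat.succ (Nat.pair a b)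

theorem meas_Q {φ : X → B} {f : X → ℕ} (hφ : Measurable φ) (hf : Measurable f) (k n : ℕ) :
    Measurable fun x => Q k (φ x) n (f x) := by
  refine Measurable.exists fun s => Measurable.and ?_ (Measurable.forall fun t =>
    Measurable.imp measurable_const ?_)
  · exact meas_prop₂ ((meas_rp s.unpair.1).comp hφ) hf fun a b =>
      evaln s.unpair.2 (Denumerable.ofNat Code k) (Nat.pair a n) = some b
  · exact meas_prop₂ ((meas_rp t.unpair.1).comp hφ) hf fun a _ =>
      evaln t.unpair.2 (Denumerable.ofNat Code k) (Nat.pair a n) = Option.none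

theorem meas_Ev {φ ψ : X → B} (hφ : Measurable φ) (hψ : Measurable ψ) (k : ℕ) :
    Measurable fun x => Ev k (φ x) (ψ x) :=
  Measurable.forall fun n => meas_Q hφ ((measurable_pi_apply n).comp hψ) k n

theorem meas_tle {φ ψ : X → B} (hφ : Measurable φ) (hψ : Measurable ψ) :
    Measurable fun x => TLe (φ x) (ψ x) := by
  simp only [tle_iff_ev]
  exact Measurable.exists fun k => meas_Ev hψ hφ k

theorem meas_via {φ ψ : X → B} (hφ : Measurable φ) (hψ : Measurable ψ) (g : OC × OC) :
    Measurable fun x => Via g (φ x) (ψ x) := by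
  obtain ⟨k, hk⟩ := exists_ev g.1
  obtain ⟨l, hl⟩ := exists_ev g.2
  simp only [Via, hk, hl]
  exact (meas_Ev hφ hψ k).and (meas_Ev hψ hφ l)

theorem meas_of_prop {f : X → ℕ} (h : ∀ m, Measurable fun x => f x = m) : Measurable f :=
  measurable_to_countable' fun m => measurableSet_setOfPred.2 (h m)

theorem meas_eq {φ ψ : X → B} (hφ : Measurable φ) (hψ : Measurable ψ) :
    Measurable fun x => φ x = ψ x := by
  simp only [funext_iff]
  exact Measurable.forall fun n => meas_prop₂ ((measurable_pi_apply n).comp hφ)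
    ((measurable_pi_apply n).comp hψ) fun a b => a = b

theorem meas_sInf {p : ℕ → X → Prop} (hp : ∀ n, Measurable (p n)) :
    Measurable fun x => sInf {n | p n x} := by
  refine meas_of_prop fun m => ?_
  have : ∀ x, sInf {n | p n x} = m ↔ (p m x ∧ ∀ d, d < m → ¬ p d x) ∨ (m = 0 ∧ ∀ d, ¬ p d x) := by
    intro x
    by_cases h : ∃ d, p d x
    · constructor
      · rintro rfl
        exact Or.inl ⟨Nat.sInf_mem h, fun d hd hp => Nat.notMem_of_lt_sInf hd hp⟩
      · rintro (⟨h1, h2⟩ | ⟨-, h2⟩)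
        · exact le_antisymm (Nat.sInf_le h1) (not_lt.1 fun hlt => h2 _ hlt (Nat.sInf_mem h))
        · exact absurd h (not_exists.2 h2)
    · have h' : {n | p n x} = ∅ := Set.eq_empty_of_forall_notMem (not_exists.1 h)
      rw [h', Nat.sInf_empty]
      constructor
      · rintro rfl; exact Or.inr ⟨rfl, not_exists.1 h⟩
      · rintro (⟨h1, -⟩ | ⟨h1, -⟩)
        · exact absurd ⟨m, h1⟩ h
        · exact h1.symm
  simp only [this]
  exact ((hp m).and (Measurable.forall fun d => measurable_const.imp (hp d).not)).or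
    (measurable_const.and (Measurable.forall fun d => (hp d).not))

end meas

theorem TC.meas {G : B → B} (h : TC G) : Measurable G := by
  obtain ⟨c, hc⟩ := h
  obtain ⟨k, hk⟩ := exists_ev c
  refine measurable_pi_lambda _ fun n => meas_of_prop fun m => ?_
  have : ∀ x, G x n = m ↔ Q k x n m := fun x =>
    ⟨fun h => h ▸ (hk _ _).1 (hc x _ rfl) n, fun h => ((hk _ _).1 (hc x _ rfl) n).unique h⟩
  simp only [this]
  exact meas_Q measurable_id measurable_const k n

noncomputable def tot (k : ℕ) (x : B) : B := fun n => sInf {m | Q k x n m}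

theorem Ev.eq_tot {k : ℕ} {x y : B} (h : Ev k x y) : tot k x = y :=
  funext fun n => Q.unique (Nat.sInf_mem (s := {m | Q k x n m}) ⟨y n, h n⟩) (h n)

theorem meas_tot (k : ℕ) : Measurable (tot k) :=
  measurable_pi_lambda _ fun n => meas_sInf fun _ => meas_Q measurable_id measurable_const k n

open Classical in
/-- an enumeration of each Turing degree by Borel maps -/
noncomputable def phi (p : ℕ × ℕ) (x : B) : B :=
  if Ev p.1 x (tot p.1 x) ∧ Ev p.2 (tot p.1 x) x then tot p.1 x else x

theorem meas_phi (p : ℕ × ℕ) : Measurable (phi p) :=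
  Measurable.ite (measurableSet_setOfPred.2 ((meas_Ev measurable_id (meas_tot _) _).and
    (meas_Ev (meas_tot _) measurable_id _))) (meas_tot _) measurable_id

theorem teq_iff_phi {x y : B} : TEq x y ↔ ∃ p, phi p x = y := by
  constructor
  · intro h
    obtain ⟨k, hk⟩ := tle_iff_ev.1 h.2
    obtain ⟨l, hl⟩ := tle_iff_ev.1 h.1
    refine ⟨(k, l), ?_⟩
    unfold phi
    have e := hk.eq_tot
    rw [if_pos (by simp only [e]; exact ⟨hk, hl⟩), e]
  · rintro ⟨p, rfl⟩
    unfold phi
    split_ifs with h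
    · exact ⟨tle_iff_ev.2 ⟨_, h.2⟩, tle_iff_ev.2 ⟨_, h.1⟩⟩
    · exact TEq.refl x

end Pool.Agent.Lib.MP_fa224b_lc
end

-- part Pool.Agent.Lib.MP_fa224b_lc.Game
section

/-! The pointed tree game in which the pointedness data is just the colour. -/

namespace Pool.Agent.Lib.MP_fa224b_lc

open Encodable

def strat (s : B) : List ℕ → ℕ := fun l => s (encode l)
def blind (b : B) : List ℕ → ℕ := fun l => b (l.length / 2)
def RI (x : B) : B := evens (run (strat (evens x)) (blind (odds x)))
def RII (x : B) : B := odds (run (blind (odds x)) (strat (evens x)))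
def col (D : ℕ) (a : B) : B := fun n => a (Nat.pair D n)
def Th (D : ℕ) (a : B) : B := RII (join (col D a) a)

theorem hist_length (σ τ : List ℕ → ℕ) (n : ℕ) : (hist σ τ n).length = n := by
  induction n with
  | zero => rfl
  | succ n ih => simp [hist, ih]

theorem run_eq (σ τ : List ℕ → ℕ) (n : ℕ) :
    run σ τ n = if n % 2 = 0 then σ (hist σ τ n) else τ (hist σ τ n) := rfl

theorem odds_run (σ : List ℕ → ℕ) (b : B) : odds (run σ (blind b)) = b := by
  funext n
  have h1 : (2 * n + 1) % 2 = 1 := by omega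
  have h2 : (2 * n + 1) / 2 = n := by omega
  simp [odds, run_eq, h1, blind, hist_length, h2]

theorem evens_run (τ : List ℕ → ℕ) (a : B) : evens (run (blind a) τ) = a := by
  funext n
  simp [evens, run_eq, blind, hist_length]

theorem exists_strat (σ : List ℕ → ℕ) : ∃ s, strat s = σ :=
  ⟨fun n => σ ((decode n).getD []), funext fun l => by simp [strat]⟩

theorem tc_hist (e : ℕ) : TC fun x n => (Nat.rec 0 (fun y IH =>
    Nat.succ (Nat.pair (x (if y % 2 = e then 2 * IH else 2 * (y / 2) + 1)) IH)) n : ℕ) := by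
  have u1 : Primrec fun p : ℕ => p.unpair.1 := Primrec.fst.comp Primrec.unpair
  have u2 : Primrec fun p : ℕ => p.unpair.2 := Primrec.snd.comp Primrec.unpair
  have h0 : Primrec fun q : ℕ =>
      if q.unpair.1 % 2 = e then 2 * q.unpair.2 else 2 * (q.unpair.1 / 2) + 1 :=
    Primrec.ite (Primrec.eq.comp (Primrec.nat_mod.comp u1 (Primrec.const 2)) (Primrec.const e))
      (pr_double.comp u2) (Primrec.succ.comp (pr_double.comp (pr_half.comp u1)))
  have h1 := (((TC.id.pre h0.to_comp).pair (TC.prim u2.to_comp)).post Computable.succ).recn 0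
  exact h1.of_eq fun x n => by simp only [Nat.unpair_pair]

theorem tc_RI : TC RI := by
  have h1 : TC fun x n => encode (hist (strat (evens x)) (blind (odds x)) n) := by
    refine (tc_hist 0).of_eq fun x n => ?_
    induction n with
    | zero => rfl
    | succ n ih =>
      simp only [ih, hist, encode_list_cons, encode_nat, strat, blind, evens, odds, hist_length]
      split_ifs <;> rfl
  refine (TC.id.app ((h1.pre pr_double.to_comp).post pr_double.to_comp)).of_eq fun x n => ?_
  simp [RI, evens, run_eq, strat]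

theorem tc_RII : TC RII := by
  have h1 : TC fun x n => encode (hist (blind (odds x)) (strat (evens x)) n) := by
    refine (tc_hist 1).of_eq fun x n => ?_
    induction n with
    | zero => rfl
    | succ n ih =>
      simp only [ih, hist, encode_list_cons, encode_nat, strat, blind, evens, odds, hist_length]
      rcases Nat.mod_two_eq_zero_or_one n with h | h <;> simp [h]
  refine (TC.id.app ((h1.pre (Primrec.succ.comp pr_double).to_comp).post
    pr_double.to_comp)).of_eq fun x n => ?_
  have h1 : (2 * n + 1) % 2 = 1 := by omega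
  simp [RII, evens, odds, run_eq, strat, h1]

theorem tc_Th : TC fun q => Th (q 0) (tail q) := by
  have h1 : TC fun q _ => q 0 := TC.id.pre (Computable.const 0)
  have h2 : TC fun q => col (q 0) (tail q) := tc_tail.app (h1.pair (TC.prim Computable.id))
  exact tc_RII.comp (h2.join tc_tail)

theorem tc_ThD (D : ℕ) : TC (Th D) :=
  (TC.comp (G := fun q => Th (q 0) (tail q)) tc_Th (tc_consk D)).of_eq fun x n => by
    simp only [cons_zero, tail_cons]

theorem Adequate.meas {𝒜 : MeasurableSpace B} (h : Adequate 𝒜) {G : B → B}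
    (hG : @Measurable B B MeasurableSpace.pi MeasurableSpace.pi G) :
    @Measurable B B 𝒜 MeasurableSpace.pi G :=
  hG.mono h.borel_le le_rfl

theorem game {𝒜 : MeasurableSpace B} (h : Adequate 𝒜) (κ : B → ℕ)
    (hκ : @Measurable B ℕ 𝒜 _ κ) :
    ∃ D s, ∀ b, κ (RI (join s b)) = D ∧ Th D (RI (join s b)) = b := by
  have hA : ∀ D, Determined {z | κ (evens z) = D ∧ Th D (evens z) = odds z} := by
    intro D
    refine h.determined _ (measurableSet_setOfPred.2 (Measurable.and ?_ ?_))
    · exact meas_prop₂ (hκ.comp (h.preimage _ tc_evens.meas)) measurable_const fun a b => a = b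
    · exact meas_eq (h.meas ((tc_ThD D).comp tc_evens).meas) (h.meas tc_odds.meas)
  by_cases hI : ∃ D σ, ∀ τ, run σ τ ∈ {z | κ (evens z) = D ∧ Th D (evens z) = odds z}
  · obtain ⟨D, σ, hσ⟩ := hI
    obtain ⟨s, rfl⟩ := exists_strat σ
    refine ⟨D, s, fun b => ?_⟩
    have := hσ (blind b)
    simp only [Set.mem_ofPred_eq, odds_run] at this
    simpa only [RI, evens_join, odds_join] using this
  · exfalso
    have hII : ∀ D, ∃ t, ∀ σ, run σ (strat t) ∉
        {z | κ (evens z) = D ∧ Th D (evens z) = odds z} := by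
      intro D
      rcases hA D with h1 | ⟨τ, hτ⟩
      · exact absurd ⟨D, h1⟩ hI
      · obtain ⟨t, rfl⟩ := exists_strat τ
        exact ⟨t, hτ⟩
    choose t ht using hII
    let a : B := fun n => t n.unpair.1 n.unpair.2
    refine ht (κ a) (blind a) ⟨by rw [evens_run], ?_⟩
    have : col (κ a) a = t (κ a) := funext fun n => by simp [col, a]
    simp only [evens_run, Th, RII, evens_join, odds_join, this]

end Pool.Agent.Lib.MP_fa224b_lc
end

-- part Pool.Agent.Lib.MP_fa224b_lc.Colour
section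

/-! A measurable greedy colouring that factors through the value of `F` on each class. -/

namespace Pool.Agent.Lib.MP_fa224b_lc

open Encodable

section

variable {X : Type} (E : X → X → Prop) (F : X → B) (M : X → X → Prop)

def Nb (x : X) : Set B := {w | ∃ y y', E x y ∧ F y = F x ∧ M y y' ∧ F y' = w ∧ w ≠ F x}

def Adj (x x' : X) : Prop := E x x' ∧ F x' ∈ Nb E F M x

noncomputable def lam (x : X) : ℕ :=
  sInf {n | ∀ w ∈ Nb E F M x, encode (rp w n) ≠ encode (rp (F x) n)}

noncomputable def code (x : X) : ℕ := encode (rp (F x) (lam E F M x))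

open Classical in
noncomputable def colr : ℕ → X → ℕ
  | 0, _ => 0
  | t + 1, x => if code E F M x = t then
      sInf {c | ∀ x', Adj E F M x x' → code E F M x' < t → colr t x' ≠ c} else colr t x

noncomputable def kap (x : X) : ℕ := colr E F M (code E F M x + 1) x

variable {E F M}

theorem colr_eq (x : X) (t : ℕ) (h : code E F M x < t) : colr E F M t x = kap E F M x := by
  induction t with
  | zero => omega
  | succ t ih =>
    rcases Nat.lt_succ_iff_lt_or_eq.1 h with h1 | h1
    · rw [colr, if_neg h1.ne, ih h1]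
    · rw [← h1]; rfl

theorem kap_eq (x : X) : kap E F M x =
    sInf {c | ∀ x', Adj E F M x x' → code E F M x' < code E F M x → kap E F M x' ≠ c} := by
  rw [kap, colr, if_pos rfl]
  congr 1
  ext c
  exact forall_congr' fun x' => forall_congr' fun _ => forall_congr' fun h => by
    rw [colr_eq x' _ h]

theorem nb_inv (hE : Equivalence E) {x y : X} (h : E x y) (hF : F x = F y) :
    Nb E F M x = Nb E F M y := by
  ext w
  constructor
  · rintro ⟨a, b, h1, h2, h3, h4, h5⟩
    exact ⟨a, b, hE.trans (hE.symm h) h1, h2.trans hF, h3, h4, hF ▸ h5⟩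
  · rintro ⟨a, b, h1, h2, h3, h4, h5⟩
    exact ⟨a, b, hE.trans h h1, h2.trans hF.symm, h3, h4, hF ▸ h5⟩

theorem code_inv (hE : Equivalence E) {x y : X} (h : E x y) (hF : F x = F y) :
    code E F M x = code E F M y := by
  unfold code lam
  rw [nb_inv hE h hF, hF]

theorem colr_inv (hE : Equivalence E) (t : ℕ) {x y : X} (h : E x y) (hF : F x = F y) :
    colr E F M t x = colr E F M t y := by
  induction t with
  | zero => rfl
  | succ t ih =>
    have hA : ∀ z, Adj E F M x z ↔ Adj E F M y z := fun z => by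
      unfold Adj
      rw [nb_inv hE h hF]
      exact and_congr_left' ⟨hE.trans (hE.symm h), hE.trans h⟩
    simp only [colr, code_inv hE h hF, ih, hA]

theorem kap_inv (hE : Equivalence E) {x y : X} (h : E x y) (hF : F x = F y) :
    kap E F M x = kap E F M y := by
  unfold kap
  rw [code_inv hE h hF, colr_inv hE _ h hF]

theorem rp_length (x : B) (n : ℕ) : (rp x n).length = n := by
  induction n with
  | zero => rfl
  | succ n ih => simp [rp, ih]

theorem rp_eq {x y : B} {n : ℕ} (h : rp x n = rp y n) : ∀ i < n, x i = y i := by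
  induction n with
  | zero => intro i hi; omega
  | succ n ih =>
    simp only [rp, List.cons.injEq] at h
    intro i hi
    rcases Nat.lt_succ_iff_lt_or_eq.1 hi with h1 | rfl
    · exact ih h.2 i h1
    · exact h.1

theorem code_ne {x x' : X} (hfin : (Nb E F M x).Finite) (h : F x' ∈ Nb E F M x) :
    code E F M x' ≠ code E F M x := by
  intro hc
  have h1 : rp (F x') (lam E F M x') = rp (F x) (lam E F M x) := encode_injective hc
  have h2 : lam E F M x' = lam E F M x := by
    simpa only [rp_length] using congrArg List.length h1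
  rw [h2] at h1
  have h3 : {n | ∀ w ∈ Nb E F M x, encode (rp w n) ≠ encode (rp (F x) n)}.Nonempty := by
    have : ∀ᶠ n in Filter.atTop, ∀ w ∈ Nb E F M x, encode (rp w n) ≠ encode (rp (F x) n) := by
      rw [Filter.eventually_all_finite hfin]
      rintro w ⟨-, -, -, -, -, -, hw⟩
      obtain ⟨i, hi⟩ := Function.ne_iff.1 hw
      filter_upwards [Filter.eventually_gt_atTop i] with n hn he
      exact hi (rp_eq (encode_injective he) i hn)
    exact this.exists
  exact Nat.sInf_mem h3 _ h (congrArg encode h1)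

theorem exists_free (hE : Equivalence E) {m : ℕ} (x : X) (hm : (Nb E F M x).encard < m) :
    ∃ c < m, ∀ x', Adj E F M x x' → code E F M x' < code E F M x → kap E F M x' ≠ c := by
  classical
  by_contra hcon
  push Not at hcon
  let ψ : B → ℕ := fun w => if h : ∃ x', E x x' ∧ F x' = w then kap E F M h.choose else 0
  have hsub : ((Finset.range m : Finset ℕ) : Set ℕ) ⊆ ψ '' Nb E F M x := by
    intro c hc
    obtain ⟨x', h1, -, h3⟩ := hcon c (by simpa using hc)
    refine ⟨F x', h1.2, ?_⟩
    have h : ∃ x'', E x x'' ∧ F x'' = F x' := ⟨x', h1.1, rfl⟩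
    simp only [ψ, dif_pos h]
    rw [← h3]
    exact kap_inv hE (hE.trans (hE.symm h.choose_spec.1) h1.1) h.choose_spec.2
  have h1 := (Set.encard_le_encard hsub).trans (Set.encard_image_le ψ _)
  rw [Set.encard_coe_eq_coe_finsetCard, Finset.card_range] at h1
  exact absurd hm (not_lt.2 h1)

theorem colouring [MeasurableSpace X] {ι : Type} [Countable ι] (φ : ι → X → X)
    (hE : Equivalence E) (hφ : ∀ p, Measurable (φ p)) (hEφ : ∀ x y, E x y ↔ ∃ p, φ p x = y)
    (hF : Measurable F) (hMs : ∀ x y, M x y → M y x) (hME : ∀ x y, M x y → E x y)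
    (hM : ∀ p q, Measurable fun x => M (φ p x) (φ q x)) {m : ℕ}
    (hm : ∀ x, (Nb E F M x).encard < m) :
    ∃ κ : X → ℕ, Measurable κ ∧ (∀ x, κ x < m) ∧ ∀ x y, M x y → κ x = κ y → F x = F y := by
  have hfin : ∀ x, (Nb E F M x).Finite := fun x =>
    Set.finite_of_encard_le_coe (hm x).le
  have hne : ∀ x, {c | ∀ x', Adj E F M x x' → code E F M x' < code E F M x →
      kap E F M x' ≠ c}.Nonempty := fun x => let ⟨c, _, hc⟩ := exists_free hE x (hm x); ⟨c, hc⟩
  have hNb : ∀ x w, w ∈ Nb E F M x ↔ ∃ p q, F (φ p x) = F x ∧ M (φ p x) (φ q x) ∧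
      F (φ q x) = w ∧ ¬ w = F x := by
    intro x w
    constructor
    · rintro ⟨a, b, h1, h2, h3, h4, h5⟩
      obtain ⟨p, rfl⟩ := (hEφ _ _).1 h1
      obtain ⟨q, rfl⟩ := (hEφ _ _).1 (hE.trans h1 (hME _ _ h3))
      exact ⟨p, q, h2, h3, h4, h5⟩
    · rintro ⟨p, q, h2, h3, h4, h5⟩
      exact ⟨_, _, (hEφ _ _).2 ⟨p, rfl⟩, h2, h3, h4, h5⟩
  have hlam : Measurable (lam E F M) := by
    refine meas_sInf fun n => ?_
    have : ∀ x, (∀ w ∈ Nb E F M x, encode (rp w n) ≠ encode (rp (F x) n)) ↔
        ∀ p q, F (φ p x) = F x → M (φ p x) (φ q x) → ¬ F (φ q x) = F x →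
          encode (rp (F (φ q x)) n) ≠ encode (rp (F x) n) := by
      intro x
      constructor
      · intro h p q h1 h2 h3
        exact h _ ((hNb _ _).2 ⟨p, q, h1, h2, rfl, h3⟩)
      · intro h w hw
        obtain ⟨p, q, h1, h2, rfl, h3⟩ := (hNb _ _).1 hw
        exact h p q h1 h2 h3
    simp only [this]
    exact Measurable.forall fun p => Measurable.forall fun q =>
      (meas_eq (hF.comp (hφ p)) hF).imp ((hM p q).imp ((meas_eq (hF.comp (hφ q)) hF).not.imp
        (meas_prop₂ ((meas_rp n).comp (hF.comp (hφ q))) ((meas_rp n).comp hF) fun a b => a ≠ b)))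
  have hcode : Measurable (code E F M) := by
    refine meas_of_prop fun k => ?_
    have : ∀ x, code E F M x = k ↔ ∃ n, lam E F M x = n ∧ encode (rp (F x) n) = k := by
      intro x; simp [code]
    simp only [this]
    exact Measurable.exists fun n => (meas_prop₂ hlam measurable_const fun a b => a = b).and
      (meas_prop₂ ((meas_rp n).comp hF) measurable_const fun a b => a = b)
  have hcolr : ∀ t, Measurable (colr E F M t) := by
    intro t
    induction t with
    | zero => exact measurable_const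
    | succ t ih =>
      refine Measurable.ite (measurableSet_setOfPred.2
        (meas_prop₂ hcode measurable_const fun a b => a = b)) (meas_sInf fun c => ?_) ih
      have : ∀ x, (∀ x', Adj E F M x x' → code E F M x' < t → colr E F M t x' ≠ c) ↔
          ∀ r, F (φ r x) ∈ Nb E F M x → code E F M (φ r x) < t → colr E F M t (φ r x) ≠ c := by
        intro x
        constructor
        · intro h r h1
          exact h _ ⟨(hEφ _ _).2 ⟨r, rfl⟩, h1⟩
        · rintro h x' ⟨h1, h2⟩
          obtain ⟨r, rfl⟩ := (hEφ _ _).1 h1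
          exact h r h2
      simp only [this, hNb]
      exact Measurable.forall fun r => (Measurable.exists fun p => Measurable.exists fun q =>
        (meas_eq (hF.comp (hφ p)) hF).and ((hM p q).and
          ((meas_eq (hF.comp (hφ q)) (hF.comp (hφ r))).and
            (meas_eq (hF.comp (hφ r)) hF).not))).imp
        ((meas_prop₂ (hcode.comp (hφ r)) measurable_const fun a b => a < b).imp
          (meas_prop₂ (ih.comp (hφ r)) measurable_const fun a b => a ≠ b))
  refine ⟨kap E F M, ?_, fun x => ?_, fun x y hxy hk => ?_⟩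
  · refine meas_of_prop fun k => ?_
    have : ∀ x, kap E F M x = k ↔ ∃ n, code E F M x = n ∧ colr E F M (n + 1) x = k := by
      intro x; simp [kap]
    simp only [this]
    exact Measurable.exists fun n => (meas_prop₂ hcode measurable_const fun a b => a = b).and
      (meas_prop₂ (hcolr _) measurable_const fun a b => a = b)
  · obtain ⟨c, hc, h⟩ := exists_free hE x (hm x)
    rw [kap_eq]
    refine lt_of_le_of_lt (Nat.sInf_le ?_) hc
    exact h
  · by_contra hne'
    have a1 : Adj E F M x y := ⟨hME _ _ hxy, x, y, hE.refl x, rfl, hxy, rfl, Ne.symm hne'⟩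
    have a2 : Adj E F M y x := ⟨hME _ _ (hMs _ _ hxy), y, x, hE.refl y, rfl, hMs _ _ hxy, rfl, hne'⟩
    rcases lt_or_gt_of_ne (code_ne (hfin x) a1.2) with h | h
    · exact Nat.sInf_mem (hne x) y a1 h (by rw [← kap_eq, hk])
    · exact Nat.sInf_mem (hne y) x a2 h (by rw [← kap_eq, hk])

end

end Pool.Agent.Lib.MP_fa224b_lc
end

-- part Pool.Agent.Lib.MP_fa224b_lc.Main
section

/-! Functions whose image graphs grow slowly are constant on a cone. -/

namespace Pool.Agent.Lib.MP_fa224b_lc

open Encodable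

theorem tc_head {p : ℕ → ℕ} (hp : Computable p) : TC fun x => cons (p (x 0)) (tail x) :=
  TC.cons (f := fun x n => p (x n)) (TC.id.post hp) tc_tail

theorem tle_cons (n : ℕ) (z : B) : TLe z (cons n z) := tc_tail.tle (cons n z)

theorem teq_cons (D : ℕ) (p : B) : TEq p (cons D p) := ⟨tle_cons D p, (tc_consk D).tle p⟩

theorem exists_start : ∃ g, ∀ z, Via g z (cons 1 z) := by
  obtain ⟨g, hg⟩ := exists_via (R := fun x y => y = cons 1 x) (tc_consk 1)
    (PC.mono tc_tail (by rintro _ x rfl; rfl))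
  exact ⟨g, fun z => hg _ _ rfl⟩

theorem exists_digit (b : ℕ) (hb : b < 2) : ∃ g, ∀ n z, Via g (cons n z) (cons (2 * n + b) z) := by
  obtain ⟨g, hg⟩ := exists_via (R := fun x y => ∃ n z, x = cons n z ∧ y = cons (2 * n + b) z)
    (PC.mono (tc_head (Primrec.nat_add.comp pr_double (Primrec.const b)).to_comp)
      (by rintro _ _ ⟨n, z, rfl, rfl⟩; rfl))
    (PC.mono (tc_head pr_half.to_comp) (by
      rintro _ _ ⟨n, z, rfl, rfl⟩
      have : (2 * n + b) / 2 = n := by omega
      simp only [cons_zero, tail_cons, this]))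
  exact ⟨g, fun n z => hg _ _ ⟨n, z, rfl, rfl⟩⟩

theorem pc_univ {p : ℕ → ℕ} (hp : Computable p) :
    PC fun x y => ∃ n z z', x = cons n z ∧ y = cons n z' ∧ Ev (p n) z z' := by
  refine (PC.cons TC.id (PC.comp (tc_head hp) pc_ev)).mono ?_
  rintro _ _ ⟨n, z, z', rfl, rfl, h⟩
  exact ⟨_, z', rfl, ⟨_, rfl, h⟩, rfl⟩

theorem exists_univ : ∃ g, ∀ k l z z', Ev k z z' → Ev l z' z →
    Via g (cons (Nat.pair k l + 1) z) (cons (Nat.pair k l + 1) z') := by
  obtain ⟨g, hg⟩ := exists_via (R := fun x y => ∃ n z z', x = cons n z ∧ y = cons n z' ∧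
      Ev (n - 1).unpair.1 z z' ∧ Ev (n - 1).unpair.2 z' z)
    (PC.mono (pc_univ (p := fun n => (n - 1).unpair.1) (Primrec.fst.comp (Primrec.unpair.comp
      (Primrec.nat_sub.comp Primrec.id (Primrec.const 1)))).to_comp)
      (by rintro _ _ ⟨n, z, z', rfl, rfl, h, -⟩; exact ⟨n, z, z', rfl, rfl, h⟩))
    (PC.mono (pc_univ (p := fun n => (n - 1).unpair.2) (Primrec.snd.comp (Primrec.unpair.comp
      (Primrec.nat_sub.comp Primrec.id (Primrec.const 1)))).to_comp)
      (by rintro _ _ ⟨n, z, z', rfl, rfl, -, h⟩; exact ⟨n, z', z, rfl, rfl, h⟩))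
  exact ⟨g, fun k l z z' h h' => hg _ _ ⟨_, z, z', rfl, rfl, by simpa using h, by simpa using h'⟩⟩

/-- four Turing equivalences generate Turing equivalence -/
theorem generate : ∃ g : Fin 4 → OC × OC, (∀ z, Via (g 0) z (cons 1 z)) ∧
    (∀ n z, Via (g 1) (cons n z) (cons (2 * n) z)) ∧
    (∀ n z, Via (g 2) (cons n z) (cons (2 * n + 1) z)) ∧
    ∀ (c : B) (G : B → B), (∀ i w w', TLe c w → Via (g i) w w' → G w = G w') →
      ∀ w w', TLe c w → TEq w w' → G w = G w' := by
  obtain ⟨g0, h0⟩ := exists_start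
  obtain ⟨g1, h1⟩ := exists_digit 0 (by norm_num)
  obtain ⟨g2, h2⟩ := exists_digit 1 (by norm_num)
  obtain ⟨g3, h3⟩ := exists_univ
  refine ⟨![g0, g1, g2, g3], h0, h1, h2, fun c G hG w w' hc hw => ?_⟩
  have key : ∀ z, TLe c z → ∀ n, 1 ≤ n → G z = G (cons n z) := by
    intro z hz n
    induction n using Nat.strong_induction_on with
    | _ n ih =>
      intro hn
      rcases hn.eq_or_lt with rfl | hn
      · exact hG 0 _ _ hz (h0 z)
      · rw [ih (n / 2) (by omega) (by omega)]
        rcases Nat.mod_two_eq_zero_or_one n with h | h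
        · have := hG 1 _ _ (hz.trans (tle_cons _ _)) (h1 (n / 2) z)
          rwa [show 2 * (n / 2) + 0 = n by omega] at this
        · have := hG 2 _ _ (hz.trans (tle_cons _ _)) (h2 (n / 2) z)
          rwa [show 2 * (n / 2) + 1 = n by omega] at this
  obtain ⟨k, hk⟩ := tle_iff_ev.1 hw.2
  obtain ⟨l, hl⟩ := tle_iff_ev.1 hw.1
  rw [key w hc (Nat.pair k l + 1) (by omega), key w' (hc.trans hw.1) (Nat.pair k l + 1) (by omega)]
  exact hG 3 _ _ (hc.trans (tle_cons _ _)) (h3 k l w w' hk hl)

def P (s w : B) : B := RI (join s (join s w))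

theorem pc_lift (c : OC) : PC fun q q' => ∃ D s w w', q = cons D (P s w) ∧ q' = cons D (P s w') ∧
    Th D (P s w) = join s w ∧ c.eval (lift w) = lift w' := by
  have hs : TC fun q => evens (Th (q 0) (tail q)) :=
    TC.comp (G := evens) (H := fun q => Th (q 0) (tail q)) tc_evens tc_Th
  have hw : TC fun q => odds (Th (q 0) (tail q)) :=
    TC.comp (G := odds) (H := fun q => Th (q 0) (tail q)) tc_odds tc_Th
  refine (PC.cons TC.id (PC.comp (PC.join hs (PC.join hs (PC.comp hw (pc_eval c)))) tc_RI)).mono ?_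
  rintro _ _ ⟨D, s, w, w', rfl, rfl, h1, h2⟩
  refine ⟨_, P s w', rfl, ⟨join s (join s w'), ⟨s, join s w', ?_, ⟨s, w', ?_, ⟨w, ?_, h2⟩, rfl⟩,
    rfl⟩, rfl⟩, rfl⟩ <;> simp only [cons_zero, tail_cons, h1, evens_join, odds_join]

theorem exists_lift (g : OC × OC) : ∃ u, ∀ D s w w', Th D (P s w) = join s w →
    Th D (P s w') = join s w' → Via g w w' → Via u (cons D (P s w)) (cons D (P s w')) := by
  obtain ⟨u, hu⟩ := exists_via (R := fun q q' => ∃ D s w w', q = cons D (P s w) ∧
      q' = cons D (P s w') ∧ Th D (P s w) = join s w ∧ Th D (P s w') = join s w' ∧ Via g w w')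
    (PC.mono (pc_lift g.1) (by
      rintro _ _ ⟨D, s, w, w', rfl, rfl, h1, -, h3⟩; exact ⟨D, s, w, w', rfl, rfl, h1, h3.1⟩))
    (PC.mono (pc_lift g.2) (by
      rintro _ _ ⟨D, s, w, w', rfl, rfl, -, h2, h3⟩; exact ⟨D, s, w', w, rfl, rfl, h2, h3.2⟩))
  exact ⟨u, fun D s w w' h1 h2 h3 => hu _ _ ⟨D, s, w, w', rfl, rfl, h1, h2, h3⟩⟩

section ball

variable {F : B → B} {c : B} {G : Finset (OC × OC)}

theorem self_mem_ball (r : ℕ) (v : B) : v ∈ ball F c G r v := by
  induction r with
  | zero => rfl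
  | succ r ih => exact Or.inl ih

theorem ball_add {r s : ℕ} {u v w : B} (h : v ∈ ball F c G r u) (h' : w ∈ ball F c G s v) :
    w ∈ ball F c G (r + s) u := by
  induction s generalizing w with
  | zero => rwa [show w = v from h']
  | succ s ih =>
    rcases h' with h' | ⟨t, h1, h2⟩
    · exact Or.inl (ih h')
    · exact Or.inr ⟨t, ih h1, h2⟩

theorem ball_via {g : OC × OC} (hg : g ∈ G) {x y : B} (hc : TEq c x) (h : Via g x y) :
    F y ∈ ball F c G 1 (F x) ∧ F x ∈ ball F c G 1 (F y) :=
  ⟨Or.inr ⟨_, rfl, g, hg, x, y, hc, h, Or.inl ⟨rfl, rfl⟩⟩,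
    Or.inr ⟨_, rfl, g, hg, x, y, hc, h, Or.inr ⟨rfl, rfl⟩⟩⟩

theorem ball_cons {g : Fin 4 → OC × OC} (hg : ∀ i, g i ∈ G) (h0 : ∀ z, Via (g 0) z (cons 1 z))
    (h1 : ∀ n z, Via (g 1) (cons n z) (cons (2 * n) z))
    (h2 : ∀ n z, Via (g 2) (cons n z) (cons (2 * n + 1) z)) {p : B} (hp : TEq c p) (L : ℕ) :
    ∀ D, 2 ^ L ≤ D → D < 2 ^ (L + 1) →
      F (cons D p) ∈ ball F c G (L + 1) (F p) ∧ F p ∈ ball F c G (L + 1) (F (cons D p)) := by
  induction L with
  | zero =>
    intro D a b
    obtain rfl : D = 1 := by omega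
    exact ball_via (hg 0) hp (h0 p)
  | succ L ih =>
    intro D a b
    obtain ⟨i1, i2⟩ := ih (D / 2) (by omega) (by omega)
    have : F (cons D p) ∈ ball F c G 1 (F (cons (D / 2) p)) ∧
        F (cons (D / 2) p) ∈ ball F c G 1 (F (cons D p)) := by
      rcases Nat.mod_two_eq_zero_or_one D with h | h
      · have := ball_via (F := F) (hg 1) (hp.trans (teq_cons _ _)) (h1 (D / 2) p)
        rwa [show 2 * (D / 2) = D by omega] at this
      · have := ball_via (F := F) (hg 2) (hp.trans (teq_cons _ _)) (h2 (D / 2) p)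
        rwa [show 2 * (D / 2) + 1 = D by omega] at this
    refine ⟨ball_add i1 this.1, ?_⟩
    have h := ball_add this.2 i2
    rwa [show 1 + (L + 1) = L + 1 + 1 by omega] at h

end ball

theorem meas_join (s : B) : Measurable (join s) := by
  refine measurable_pi_lambda _ fun n => ?_
  unfold join
  split_ifs
  · exact measurable_const
  · exact measurable_pi_apply _

theorem meas_P (s : B) : Measurable (P s) :=
  tc_RI.meas.comp ((meas_join s).comp (meas_join s))

theorem teq_RI {D : ℕ} {s b : B} (h : Th D (RI (join s b)) = b) (hs : TLe s b) :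
    TEq (RI (join s b)) b :=
  ⟨(tc_RI.tle _).trans (hs.join (TLe.refl b)), by
    have := (tc_ThD D).tle (RI (join s b))
    rwa [h] at this⟩

theorem tle_col (D : ℕ) (a : B) : TLe (col D a) a :=
  (TC.id.pre (Primrec₂.natPair.comp (Primrec.const D) Primrec.id).to_comp).tle a

/-- a literally invariant function is constant on a cone -/
theorem const_on_cone {𝒜 : MeasurableSpace B} (h : Adequate 𝒜) (G : B → B)
    (hG : @Measurable B B 𝒜 MeasurableSpace.pi G) (c : B)
    (hinv : ∀ w w', TLe c w → TEq w w' → G w = G w') :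
    ∃ c' v, ∀ w, TLe c' w → TLe c w ∧ G w = v := by
  choose D s hs using fun n => game h (fun w => G w n) ((measurable_pi_apply n).comp hG)
  let a : B := fun n => s n.unpair.1 n.unpair.2
  refine ⟨join c a, D, fun w hw => ?_⟩
  have h1 : TLe c w := by simpa using (tc_evens.tle (join c a)).trans hw
  have h2 : TLe a w := by simpa using (tc_odds.tle (join c a)).trans hw
  refine ⟨h1, funext fun n => ?_⟩
  have h3 : col n a = s n := funext fun k => by simp [col, a]
  have h4 : TLe (s n) w := h3 ▸ (tle_col n a).trans h2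
  rw [hinv w _ h1 (teq_RI (hs n w).2 h4).symm]
  exact (hs n w).1

theorem meas_M (c : B) (u : Fin 4 → OC × OC) (L : ℕ) (p q : ℕ × ℕ) :
    Measurable fun x => TLe c (phi p x) ∧ TLe c (phi q x) ∧ ∃ i D, 2 ^ L ≤ D ∧ D < 2 ^ (L + 1) ∧
      (Via (u i) (cons D (phi p x)) (cons D (phi q x)) ∨
        Via (u i) (cons D (phi q x)) (cons D (phi p x))) :=
  (meas_tle measurable_const (meas_phi p)).and ((meas_tle measurable_const
    (meas_phi q)).and (Measurable.exists fun _ => Measurable.exists fun D =>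
    measurable_const.and (measurable_const.and
      ((meas_via ((tc_consk D).meas.comp (meas_phi p)) ((tc_consk D).meas.comp (meas_phi q))
        _).or (meas_via ((tc_consk D).meas.comp (meas_phi q))
          ((tc_consk D).meas.comp (meas_phi p)) _)))))

theorem core {𝒜 : MeasurableSpace B} (h : Adequate 𝒜) (F : B → B)
    (hF : @Measurable B B 𝒜 MeasurableSpace.pi F)
    (hg : ∀ G : Finset (OC × OC), ∃ (c : B) (L : ℕ), ∀ d, TLe c d → ∀ v,
      (ball F d G (2 * L + 3) v).encard ≤ 2 ^ L) :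
    ∃ c' v, ∀ x, TLe c' x → ∃ y, TEq y x ∧ F y = v := by
  classical
  obtain ⟨g, h0, h1, h2, hgen⟩ := generate
  choose u hu using fun i => exists_lift (g i)
  obtain ⟨c, L, hL⟩ := hg (Finset.univ.image g ∪ Finset.univ.image u)
  set G := Finset.univ.image g ∪ Finset.univ.image u with hG
  have hgG : ∀ i, g i ∈ G := fun i => by simp [hG]
  have huG : ∀ i, u i ∈ G := fun i => by simp [hG]
  let M : B → B → Prop := fun p p' => TLe c p ∧ TLe c p' ∧ ∃ i D, 2 ^ L ≤ D ∧ D < 2 ^ (L + 1) ∧
    (Via (u i) (cons D p) (cons D p') ∨ Via (u i) (cons D p') (cons D p))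
  have tc : ∀ D p, TEq p (cons D p) := fun D p => ⟨tle_cons D p, (tc_consk D).tle p⟩
  have hME : ∀ p p', M p p' → TEq p p' := by
    rintro p p' ⟨-, -, i, D, -, -, hv | hv⟩
    · exact ((tc D p).trans hv.teq).trans (tc D p').symm
    · exact ((tc D p).trans hv.teq.symm).trans (tc D p').symm
  have hball : ∀ d p p', TEq d p → M p p' → F p' ∈ ball F d G (2 * L + 3) (F p) := by
    intro d p p' a hM
    have a' := a.trans (hME _ _ hM)
    obtain ⟨-, -, i, D, b, b', hv⟩ := hM
    have e1 := (ball_cons (F := F) hgG h0 h1 h2 a L D b b').1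
    have e3 := (ball_cons (F := F) hgG h0 h1 h2 a' L D b b').2
    have e2 : F (cons D p') ∈ ball F d G 1 (F (cons D p)) := by
      rcases hv with hv | hv
      · exact (ball_via (huG i) (a.trans (tc _ _)) hv).1
      · exact (ball_via (huG i) (a'.trans (tc _ _)) hv).2
    have := ball_add (ball_add e1 e2) e3
    rwa [show L + 1 + 1 + (L + 1) = 2 * L + 3 by omega] at this
  obtain ⟨κ, hκ, hκm, hκp⟩ := @colouring B TEq F M 𝒜 (ℕ × ℕ) _ phi
    ⟨TEq.refl, TEq.symm, TEq.trans⟩ (fun p => h.preimage _ (meas_phi p)) (fun _ _ => teq_iff_phi)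
    hF (by
      rintro p p' ⟨a, a', i, D, b, b', hv⟩
      exact ⟨a', a, i, D, b, b', hv.symm⟩) hME (by
      intro p q
      exact Measurable.mono (meas_M c u L p q) h.borel_le le_rfl) (2 ^ L) (by
      intro x
      by_cases hcx : TLe c x
      swap
      · have : Nb TEq F M x = ∅ := by
          refine Set.eq_empty_of_forall_notMem ?_
          rintro w ⟨y, y', e0, -, e2, -⟩
          exact hcx (e2.1.trans e0.2)
        rw [this, Set.encard_empty]
        exact_mod_cast Nat.two_pow_pos L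
      have hfin : (ball F x G (2 * L + 3) (F x)).Finite :=
        Set.finite_of_encard_le_coe (k := 2 ^ L) (by exact_mod_cast hL x hcx (F x))
      have hss : Nb TEq F M x ⊂ ball F x G (2 * L + 3) (F x) := by
        refine ⟨?_, fun hh => ?_⟩
        · rintro w ⟨y, y', e0, e1, e2, rfl, -⟩
          exact e1 ▸ hball x y y' e0 e2
        · obtain ⟨-, -, -, -, -, -, e⟩ := hh (self_mem_ball _ _)
          exact e rfl
      exact ((hfin.subset hss.1).encard_lt_encard hss).trans_le
        (by exact_mod_cast hL x hcx (F x)))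
  obtain ⟨D, s, hs⟩ := game h (fun x => κ x + 2 ^ L) (meas_nat₂ hκ hκ fun a _ => a + 2 ^ L)
  have hD : 2 ^ L ≤ D ∧ D < 2 ^ (L + 1) := by
    have a := (hs s).1
    have b := hκm (RI (join s s))
    omega
  have hwP : ∀ w, TLe w (P s w) := fun w => by
    have a := (tc_ThD D).tle (P s w)
    rw [show Th D (P s w) = join s w from (hs _).2] at a
    simpa using (tc_odds.tle (join s w)).trans a
  have hinv := hgen c (fun w => F (P s w)) fun i w w' hw hv => by
    refine hκp _ _ ⟨hw.trans (hwP w), (hw.trans hv.teq.1).trans (hwP w'), i, D, hD.1, hD.2,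
      Or.inl (hu i D s w w' (hs _).2 (hs _).2 hv)⟩ ?_
    have a : κ (P s w) + 2 ^ L = D := (hs _).1
    have b : κ (P s w') + 2 ^ L = D := (hs _).1
    omega
  obtain ⟨c', v, hc'⟩ := const_on_cone h (fun w => F (P s w))
    (hF.comp (h.preimage _ (meas_P s))) c hinv
  refine ⟨join c' s, v, fun x hx => ?_⟩
  have a1 : TLe c' x := by simpa using (tc_evens.tle (join c' s)).trans hx
  have a2 : TLe s x := by simpa using (tc_odds.tle (join c' s)).trans hx
  exact ⟨P s x, ⟨(tc_RI.tle _).trans (a2.join (a2.join (TLe.refl x))), hwP x⟩,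
    (hc' x a1).2⟩

open Pointwise in
theorem group_case {𝒜 : MeasurableSpace B} (h : Adequate 𝒜) (F : B → B)
    (hF : @Measurable B B 𝒜 MeasurableSpace.pi F) (c : B) (H : Type) [Group H] [DecidableEq H]
    [MulAction H B]
    (hH : ∀ (S : Finset H) (ε : ℝ), 0 < ε → ∃ r₀ : ℕ, ∀ r ≥ r₀,
      ((S ^ r).card : ℝ) ≤ Real.exp (ε * r))
    (hb : ∀ g : OC × OC, ∃ S : Finset H, ∀ x y, TLe c x → Via g x y → ∃ a ∈ S, F y = a • F x) :
    ∃ c' v, ∀ x, TLe c' x → F x ∈ MulAction.orbit H v := by
  choose S hS using hb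
  obtain ⟨c', v, hc'⟩ := core h F hF fun G => by
    let T : Finset H := insert 1 (G.biUnion fun g => S g ∪ (S g)⁻¹)
    have hsub : ∀ d, TLe c d → ∀ r v,
        ball F d G r v ⊆ (fun a : H => a • v) '' ((T ^ r : Finset H) : Set H) := by
      intro d hd r v
      induction r with
      | zero => rintro _ rfl; exact ⟨1, by simp, one_smul _ _⟩
      | succ r ih =>
        have step : ∀ u ∈ ball F d G r v, ∀ b ∈ T,
            b • u ∈ (fun a : H => a • v) '' ((T ^ (r + 1) : Finset H) : Set H) := by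
          intro u hu b hb
          obtain ⟨a, ha, rfl⟩ := ih hu
          exact ⟨b * a, by rw [pow_succ']; exact Finset.mul_mem_mul hb ha, mul_smul _ _ _⟩
        rintro w (hw | ⟨u, hu, g, hg, x, y, hx, hv, hh⟩)
        · simpa using step w hw 1 (Finset.mem_insert_self _ _)
        · obtain ⟨a, ha, e⟩ := hS g x y (hd.trans hx.1) hv
          rcases hh with ⟨rfl, rfl⟩ | ⟨rfl, rfl⟩
          · rw [e]
            exact step _ hu a (Finset.mem_insert_of_mem (Finset.mem_biUnion.2
              ⟨g, hg, Finset.mem_union_left _ ha⟩))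
          · have := step _ hu a⁻¹ (Finset.mem_insert_of_mem (Finset.mem_biUnion.2
              ⟨g, hg, Finset.mem_union_right _ (Finset.inv_mem_inv ha)⟩))
            rwa [e, inv_smul_smul] at this
    have hl : 0 < Real.log 2 := Real.log_pos (by norm_num)
    obtain ⟨r₀, hr⟩ := hH T (Real.log 2 / 4) (by positivity)
    refine ⟨c, r₀ + 2, fun d hd v => ?_⟩
    have h1 := hr (2 * (r₀ + 2) + 3) (by omega)
    have h2 : Real.exp (Real.log 2 / 4 * ((2 * (r₀ + 2) + 3 : ℕ) : ℝ)) ≤ 2 ^ (r₀ + 2) := by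
      rw [← Real.exp_log (show (0 : ℝ) < 2 ^ (r₀ + 2) by positivity), Real.log_pow]
      refine Real.exp_le_exp.2 ?_
      push_cast
      have : (0 : ℝ) ≤ r₀ := Nat.cast_nonneg _
      nlinarith
    have h3 : (T ^ (2 * (r₀ + 2) + 3)).card ≤ 2 ^ (r₀ + 2) := by exact_mod_cast h1.trans h2
    refine ((Set.encard_le_encard (hsub d hd _ v)).trans (Set.encard_image_le _ _)).trans ?_
    rw [Set.encard_coe_eq_coe_finsetCard]
    exact_mod_cast h3
  refine ⟨join c c', v, fun x hx => ?_⟩
  have h1 : TLe c x := by simpa using (tc_evens.tle (join c c')).trans hx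
  obtain ⟨y, h2, rfl⟩ := hc' x (by simpa using (tc_odds.tle (join c c')).trans hx)
  obtain ⟨g, hg⟩ := h2.via
  obtain ⟨a, -, e⟩ := hS g y x (h1.trans h2.2) hg
  exact ⟨a, e.symm⟩

end Pool.Agent.Lib.MP_fa224b_lc
end
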